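import Pool.Agent.N718.GC.Stm
import Pool.Agent.N454.DC.PADT

/-!
Project GC (helper718), part MAINBG: a positive proportion of the families is everywhere locally
soluble.
-/

set_option autoImplicit false

namespace Pool.Agent.N80.GC

open Finset Pool.Agent.N718.DC Pool.Agent.N718.GC

variable {r m : ℕ}

theorem a_ne (E : Dat r m) {e : Fin m → ℕ} (hE : E.Ok e) (j : Fin r) : E.a j ≠ 0 := by
  intro h
  apply hE.ha {j} (singleton_nonempty j)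
  rw [prod_singleton, h]
  exact ⟨0, by ring⟩

theorem fmv_real (e : ℕ) (c c₀ : Fin (e + 2) → ℤ) (z t ε : ℝ)
    (h : ∀ j, |(c j : ℝ) - t * (c₀ j : ℝ)| ≤ ε * t) :
    |fmv c 1 z - t * fmv c₀ 1 z| ≤ ε * t * ∑ j : Fin (e + 2), |z| ^ (j : ℕ) := by
  unfold fmv fm
  rw [mul_sum, ← sum_sub_distrib, mul_sum]
  refine (abs_sum_le_sum_abs _ _).trans (sum_le_sum fun j _ => ?_)
  have e1 : (c j : ℝ) * 1 ^ (e + 1 - (j : ℕ)) * z ^ (j : ℕ) -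
      t * ((c₀ j : ℝ) * 1 ^ (e + 1 - (j : ℕ)) * z ^ (j : ℕ)) =
      ((c j : ℝ) - t * (c₀ j : ℝ)) * z ^ (j : ℕ) := by
    rw [one_pow]; ring
  rw [e1, abs_mul, abs_pow]
  exact mul_le_mul_of_nonneg_right (h j) (pow_nonneg (abs_nonneg _) _)

/-- The real place. -/
theorem real_ (h4 : ∀ (a N : ℝ), a ≠ 0 → N ≠ 0 → (Nm a N ↔ 0 < a ∨ 0 < N)) (E : Dat r m)
    {e : Fin m → ℕ} (hE : E.Ok e) (c₀ : (i : Fin m) → Fin (e i + 2) → ℤ) (z : ℝ)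
    (h : PG E c₀ (1 : ℝ) z) :
    ∃ ε : ℝ, 0 < ε ∧ ∀ (c : (i : Fin m) → Fin (e i + 2) → ℤ) (t : ℝ), 0 < t →
      (∀ k j, |(c k j : ℝ) - t * (c₀ k j : ℝ)| ≤ ε * t) → PG E c (1 : ℝ) z := by
  obtain ⟨hF, hN⟩ := h
  obtain ⟨S, hS⟩ : ∃ S : Fin m → ℝ, S = fun i => ∑ j : Fin (e i + 2), |z| ^ (j : ℕ) := ⟨_, rfl⟩
  have hS0 : ∀ i, 0 < S i := by
    intro i
    rw [hS]
    refine sum_pos' (fun j _ => pow_nonneg (abs_nonneg _) _) ⟨0, mem_univ _, ?_⟩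
    simp
  obtain ⟨D, hD⟩ : ∃ D : ℝ, D = ∑ i, 2 * S i / |fmv (c₀ i) 1 z| := ⟨_, rfl⟩
  have hterm : ∀ i, 0 ≤ 2 * S i / |fmv (c₀ i) 1 z| := fun i =>
    div_nonneg (by have := hS0 i; linarith) (abs_nonneg _)
  have hDi : ∀ i, 2 * S i / |fmv (c₀ i) 1 z| ≤ D := by
    intro i
    rw [hD]
    exact single_le_sum (f := fun i => 2 * S i / |fmv (c₀ i) 1 z|) (fun i _ => hterm i) (mem_univ i)
  have hD0 : 0 ≤ D := by
    rw [hD]
    exact sum_nonneg fun i _ => hterm i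
  have hεS : ∀ i, 1 / (1 + D) * S i ≤ |fmv (c₀ i) 1 z| / 2 := by
    intro i
    have hp : 0 < |fmv (c₀ i) 1 z| := abs_pos.2 (hF i)
    have h1 := hDi i
    rw [div_le_iff₀ hp] at h1
    rw [one_div, inv_mul_le_iff₀ (by linarith)]
    have h2 : 0 < |fmv (c₀ i) 1 z| / 2 := by linarith
    nlinarith
  refine ⟨1 / (1 + D), by positivity, fun c t ht hc => ?_⟩
  have hprod : ∀ i, 0 < fmv (c i) 1 z * fmv (c₀ i) 1 z := by
    intro i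
    have h1 := fmv_real (e i) (c i) (c₀ i) z t _ (hc i)
    have h2 := hεS i
    have h3 : |fmv (c i) 1 z - t * fmv (c₀ i) 1 z| ≤ t * (|fmv (c₀ i) 1 z| / 2) := by
      refine h1.trans ?_
      have e1 : 1 / (1 + D) * t * ∑ j : Fin (e i + 2), |z| ^ (j : ℕ) = t * (1 / (1 + D) * S i) := by
        rw [hS]; ring
      rw [e1]
      exact mul_le_mul_of_nonneg_left h2 ht.le
    have hp : 0 < |fmv (c₀ i) 1 z| := abs_pos.2 (hF i)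
    have h4 : fmv (c i) 1 z * fmv (c₀ i) 1 z =
        t * |fmv (c₀ i) 1 z| ^ 2 + (fmv (c i) 1 z - t * fmv (c₀ i) 1 z) * fmv (c₀ i) 1 z := by
      rw [sq_abs]; ring
    have h5 : |(fmv (c i) 1 z - t * fmv (c₀ i) 1 z) * fmv (c₀ i) 1 z| ≤
        t * (|fmv (c₀ i) 1 z| / 2) * |fmv (c₀ i) 1 z| := by
      rw [abs_mul]
      exact mul_le_mul_of_nonneg_right h3 hp.le
    have h6 := neg_abs_le ((fmv (c i) 1 z - t * fmv (c₀ i) 1 z) * fmv (c₀ i) 1 z)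
    have h7 : 0 < t * |fmv (c₀ i) 1 z| ^ 2 := by positivity
    rw [h4]
    nlinarith
  have hne : ∀ i, fmv (c i) 1 z ≠ 0 := fun i h0 => by
    have := hprod i
    rw [h0, zero_mul] at this
    exact lt_irrefl _ this
  refine ⟨hne, fun j => ?_⟩
  have ha : (E.a j : ℝ) ≠ 0 := by exact_mod_cast a_ne E hE j
  have hb : (E.b j : ℝ) ≠ 0 := by exact_mod_cast hE.hb j
  have hr : rhs E c j (1 : ℝ) z ≠ 0 := mul_ne_zero hb (prod_ne_zero_iff.2 fun i _ => hne i)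
  have hr₀ : rhs E c₀ j (1 : ℝ) z ≠ 0 := mul_ne_zero hb (prod_ne_zero_iff.2 fun i _ => hF i)
  have hrr : 0 < rhs E c j (1 : ℝ) z * rhs E c₀ j (1 : ℝ) z := by
    have e1 : rhs E c j (1 : ℝ) z * rhs E c₀ j (1 : ℝ) z =
        (E.b j : ℝ) ^ 2 * ∏ i ∈ E.I j, (fmv (c i) (1 : ℝ) z * fmv (c₀ i) 1 z) := by
      unfold rhs
      rw [prod_mul_distrib]; ring
    rw [e1]
    exact mul_pos (by positivity) (prod_pos fun i _ => hprod i)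
  rw [h4 _ _ ha hr]
  rcases (h4 _ _ ha hr₀).1 (hN j) with h1 | h1
  · exact Or.inl h1
  · exact Or.inr (pos_of_mul_pos_left hrr h1.le)

theorem fmv_padic (p : ℕ) [Fact p.Prime] (e K : ℕ) (c c₀ : Fin (e + 2) → ℤ) (x y : ℚ_[p])
    (h : ∀ j, (p : ℤ) ^ K ∣ c j - c₀ j) :
    ‖fmv c x y - fmv c₀ x y‖ ≤ ((p : ℝ) ^ K)⁻¹ *
      ∑ j : Fin (e + 2), ‖x‖ ^ (e + 1 - (j : ℕ)) * ‖y‖ ^ (j : ℕ) := by
  unfold fmv fm
  rw [← sum_sub_distrib, mul_sum]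
  refine (norm_sum_le _ _).trans (sum_le_sum fun j _ => ?_)
  have e1 : (c j : ℚ_[p]) * x ^ (e + 1 - (j : ℕ)) * y ^ (j : ℕ) -
      (c₀ j : ℚ_[p]) * x ^ (e + 1 - (j : ℕ)) * y ^ (j : ℕ) =
      ((c j - c₀ j : ℤ) : ℚ_[p]) * (x ^ (e + 1 - (j : ℕ)) * y ^ (j : ℕ)) := by
    push_cast; ring
  rw [e1, norm_mul, norm_mul, norm_pow, norm_pow]
  refine mul_le_mul_of_nonneg_right ?_ (by positivity)
  have h1 := (Padic.norm_int_le_pow_iff_dvd (p := p) (c j - c₀ j) K).2 (by exact_mod_cast h j)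
  rwa [zpow_neg, zpow_natCast] at h1

/-- The places `p ≤ W`. -/
theorem padic_ (h3 : ∀ (K : Type) [Field K] (a N z : K), Nm a N → Nm a (N * z ^ 2)) (E : Dat r m)
    {e : Fin m → ℕ} (c₀ : (i : Fin m) → Fin (e i + 2) → ℤ) (p : ℕ) [Fact p.Prime]
    (x y : ℚ_[p]) (h : PG E c₀ x y) :
    ∃ K : ℕ, ∀ c : (i : Fin m) → Fin (e i + 2) → ℤ,
      (∀ i j, (p : ℤ) ^ K ∣ c i j - c₀ i j) → PG E c x y := by
  obtain ⟨hF, hN⟩ := h
  have hp1 : (1 : ℝ) < p := by exact_mod_cast (Fact.out : p.Prime).one_lt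
  have hp0 : (0 : ℝ) < p := by linarith
  obtain ⟨R, hR⟩ : ∃ R : Fin m → ℝ, R = fun i =>
      ∑ j : Fin (e i + 2), ‖x‖ ^ (e i + 1 - (j : ℕ)) * ‖y‖ ^ (j : ℕ) := ⟨_, rfl⟩
  have hR0 : ∀ i, 0 ≤ R i := by
    intro i
    rw [hR]
    positivity
  have hterm : ∀ i, 0 ≤ R i * (p : ℝ) ^ 3 / ‖fmv (c₀ i) x y‖ := fun i =>
    div_nonneg (mul_nonneg (hR0 i) (by positivity)) (norm_nonneg _)
  obtain ⟨K, hK⟩ := pow_unbounded_of_one_lt (∑ i, R i * (p : ℝ) ^ 3 / ‖fmv (c₀ i) x y‖) hp1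
  refine ⟨K, fun c hc => ?_⟩
  have hw : ∀ i, ∃ w : ℚ_[p], w ≠ 0 ∧ fmv (c i) x y = fmv (c₀ i) x y * w ^ 2 := by
    intro i
    apply Pool.Agent.N454.DC.ratio_sq (hF i)
    refine (fmv_padic p (e i) K (c i) (c₀ i) x y (hc i)).trans ?_
    have hn : 0 < ‖fmv (c₀ i) x y‖ := norm_pos_iff.2 (hF i)
    have h1 : R i * (p : ℝ) ^ 3 / ‖fmv (c₀ i) x y‖ ≤ (p : ℝ) ^ K :=
      (single_le_sum (f := fun i => R i * (p : ℝ) ^ 3 / ‖fmv (c₀ i) x y‖) (fun i _ => hterm i)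
        (mem_univ i)).trans hK.le
    rw [div_le_iff₀ hn] at h1
    have h2 : (∑ j : Fin (e i + 2), ‖x‖ ^ (e i + 1 - (j : ℕ)) * ‖y‖ ^ (j : ℕ)) = R i := by rw [hR]
    rw [h2, inv_mul_le_iff₀ (by positivity)]
    have h3' : (p : ℝ) ^ K * (((p : ℝ) ^ 3)⁻¹ * ‖fmv (c₀ i) x y‖) =
        ((p : ℝ) ^ K * ‖fmv (c₀ i) x y‖) * ((p : ℝ) ^ 3)⁻¹ := by ring
    rw [h3', le_mul_inv_iff₀ (by positivity)]
    exact h1
  choose w hw0 hw using hw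
  refine ⟨fun i => ?_, fun j => ?_⟩
  · rw [hw]
    exact mul_ne_zero (hF i) (pow_ne_zero 2 (hw0 i))
  · have e1 : rhs E c j x y = rhs E c₀ j x y * (∏ i ∈ E.I j, w i) ^ 2 := by
      unfold rhs
      rw [prod_congr rfl fun i _ => hw i, prod_mul_distrib, prod_pow]
      ring
    rw [e1]
    exact h3 _ _ _ _ (hN j)

/-- The places `l > W`. -/
theorem large_ (h1 : ∀ (l : ℕ) [Fact l.Prime] (a N : ℤ), l ≠ 2 → ¬ (l : ℤ) ∣ a → N ≠ 0 →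
    (Even (padicValNat l N.natAbs) ∨ jacobiSym a l = 1) → Nm (a : ℚ_[l]) (N : ℚ_[l]))
    (E : Dat r m) {e : Fin m → ℕ} (c : (i : Fin m) → Fin (e i + 2) → ℤ) (l : ℕ) [Fact l.Prime]
    (hl2 : l ≠ 2) (ha : ∀ j, ¬ (l : ℤ) ∣ E.a j) (hb : ∀ j, ¬ (l : ℤ) ∣ E.b j) (h : Triv c l) :
    ∃ x y : ℚ_[l], PG E c x y := by
  obtain ⟨u₀, u₁, hu⟩ := h
  refine ⟨(u₀ : ℚ_[l]), (u₁ : ℚ_[l]), fun i => ?_, fun j => ?_⟩
  · rw [Pool.Agent.N454.DC.fmv_cast]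
    intro h0
    have h2 : fm (c i) u₀ u₁ = 0 := by exact_mod_cast h0
    exact hu i (by rw [h2]; exact dvd_zero _)
  · have hp : Prime (l : ℤ) := Nat.prime_iff_prime_int.1 Fact.out
    have hN : ¬ (l : ℤ) ∣ E.b j * ∏ i ∈ E.I j, fm (c i) u₀ u₁ := by
      intro hd
      rcases hp.dvd_or_dvd hd with h2 | h2
      · exact hb j h2
      · obtain ⟨i, _, h3⟩ := (Prime.dvd_finsetProd_iff hp _).1 h2
        exact hu i h3
    have e1 : rhs E c j (u₀ : ℚ_[l]) (u₁ : ℚ_[l]) =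
        ((E.b j * ∏ i ∈ E.I j, fm (c i) u₀ u₁ : ℤ) : ℚ_[l]) := by
      unfold rhs
      push_cast
      congr 1
      exact prod_congr rfl fun i _ => Pool.Agent.N454.DC.fmv_cast _ _ _
    rw [e1]
    refine h1 l _ _ hl2 (ha j) (fun h0 => hN (by rw [h0]; exact dvd_zero _)) (Or.inl ?_)
    rw [padicValNat.eq_zero_of_not_dvd (fun hd => hN (Int.natCast_dvd.2 hd))]
    exact Even.zero

open Classical in
theorem mainbg_ (h1 : S_BOXG) (h2 : S_TRIV) (h3 : S_LOCN) : S_MAINBG := by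
  intro r m E e hE U hex
  obtain ⟨c₀, ⟨z₀, hz₀U, hz₀⟩, hloc⟩ := hex
  obtain ⟨l1, l2, l3, l4⟩ := h3
  obtain ⟨ε, hε, hreal⟩ := real_ l4 E hE c₀ z₀ hz₀
  obtain ⟨p₀, hp₀, hbox⟩ := h1 (Fin m) e (fun k j => (c₀ k j : ℝ)) ε hε
  obtain ⟨W₀, htriv⟩ := h2 m e (p₀ / 2) (by linarith)
  -- the bound for the small primes
  obtain ⟨W, hWdef⟩ : ∃ W : ℕ, W = max W₀ (max 2 (∏ j, (E.a j * E.b j)).natAbs) := ⟨_, rfl⟩
  have hW0 : W₀ ≤ W := by rw [hWdef]; exact le_max_left _ _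
  have hW2 : 2 ≤ W := by rw [hWdef]; exact (le_max_left _ _).trans (le_max_right _ _)
  have hWB : (∏ j, (E.a j * E.b j)).natAbs ≤ W := by
    rw [hWdef]; exact (le_max_right _ _).trans (le_max_right _ _)
  have hB0 : (∏ j, (E.a j * E.b j)) ≠ 0 :=
    prod_ne_zero_iff.2 fun j _ => mul_ne_zero (a_ne E hE j) (hE.hb j)
  have hbig : ∀ l : ℕ, W < l → ∀ j, ¬ (l : ℤ) ∣ E.a j * E.b j := by
    intro l hl j hd
    have h4 : (l : ℤ) ∣ ∏ j, (E.a j * E.b j) := hd.trans (dvd_prod_of_mem _ (mem_univ j))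
    have h5 : l ∣ (∏ j, (E.a j * E.b j)).natAbs := Int.natCast_dvd.1 h4
    have h6 := Nat.le_of_dvd (Int.natAbs_pos.2 hB0) h5
    omega
  -- the exponents
  have hK : ∀ p : Nat.Primes, ∃ K : ℕ, ∀ c : (i : Fin m) → Fin (e i + 2) → ℤ,
      (∀ i j, ((p : ℕ) : ℤ) ^ K ∣ c i j - c₀ i j) → ∃ x y : ℚ_[(p : ℕ)], PG E c x y := by
    intro p
    obtain ⟨x, y, hxy⟩ := hloc p
    obtain ⟨K, hK⟩ := padic_ l3 E c₀ (p : ℕ) x y hxy
    exact ⟨K, fun c hc => ⟨x, y, hK c hc⟩⟩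
  choose K hK using hK
  obtain ⟨K', hK'⟩ : ∃ K' : ℕ → ℕ, ∀ p : Nat.Primes, K' p = K p :=
    ⟨fun p => if h : p.Prime then K ⟨p, h⟩ else 0, fun p => by
      simp only [p.2, dite_true]
      rfl⟩
  obtain ⟨M, hM⟩ : ∃ M : ℕ, M = ∏ p ∈ (Icc 1 W).filter Nat.Prime, p ^ K' p := ⟨_, rfl⟩
  have hM0 : 0 < M := by
    rw [hM]
    exact prod_pos fun p hp => pow_pos (mem_filter.1 hp).2.pos _
  have hMK : ∀ p : ℕ, p.Prime → p ≤ W → p ^ K' p ∣ M := by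
    intro p hp hpW
    rw [hM]
    exact dvd_prod_of_mem (fun p => p ^ K' p) (mem_filter.2 ⟨mem_Icc.2 ⟨hp.one_lt.le, hpW⟩, hp⟩)
  have hMp' : ∀ p : ℕ, p.Prime → p ∣ M → p ≤ W := by
    intro p hp hpM
    rw [hM] at hpM
    obtain ⟨q, hq, hpq⟩ := (Prime.dvd_finsetProd_iff hp.prime _).1 hpM
    obtain ⟨hq1, hq2⟩ := mem_filter.1 hq
    have := (Nat.prime_dvd_prime_iff_eq hp hq2).1 (hp.dvd_of_dvd_pow hpq)
    rw [this]
    exact (mem_Icc.1 hq1).2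
  obtain ⟨H₁, hH₁⟩ := hbox M hM0 c₀
  obtain ⟨H₂, hH₂⟩ := htriv W hW0 M hM0 hMp' c₀
  have hMR : (0 : ℝ) < M := by exact_mod_cast hM0
  refine ⟨p₀ / 2 * (1 / (M : ℝ)) ^ ncI e, by positivity, max H₁ H₂, fun H hH => ?_⟩
  have hB := hH₁ H ((le_max_left _ _).trans hH)
  have hA := hH₂ H ((le_max_right _ _).trans hH)
  have hsub : (BXI e H).filter (fun c => (∀ k j, (M : ℤ) ∣ c k j - c₀ k j) ∧
        ∃ t : ℝ, 0 < t ∧ ∀ k j, |(c k j : ℝ) - t * (c₀ k j : ℝ)| ≤ ε * t) ⊆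
      (BXI e H).filter (fun c => (∀ i j, (M : ℤ) ∣ c i j - c₀ i j) ∧
        ∃ l : ℕ, l.Prime ∧ W < l ∧ ¬ Triv c l) ∪ (BXI e H).filter (fun c => LocG E U c) := by
    intro c hc
    obtain ⟨hcB, hcM, t, ht, hct⟩ := mem_filter.1 hc
    rw [mem_union]
    by_cases hl : ∃ l : ℕ, l.Prime ∧ W < l ∧ ¬ Triv c l
    · exact Or.inl (mem_filter.2 ⟨hcB, hcM, hl⟩)
    · right
      refine mem_filter.2 ⟨hcB, ⟨z₀, hz₀U, hreal c t ht hct⟩, fun p => ?_⟩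
      rcases le_or_gt (p : ℕ) W with hpW | hpW
      · apply hK p c
        intro i j
        refine dvd_trans ?_ (hcM i j)
        have h5 := hMK p p.2 hpW
        rw [hK'] at h5
        exact_mod_cast h5
      · have htr : Triv c (p : ℕ) := by
          by_contra hnt
          exact hl ⟨p, p.2, hpW, hnt⟩
        refine large_ l1 E c (p : ℕ) (by omega) (fun j hd => ?_) (fun j hd => ?_) htr
        · exact hbig p hpW j (Dvd.dvd.mul_right hd _)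
        · exact hbig p hpW j (Dvd.dvd.mul_left hd _)
  have hcard : (((BXI e H).filter (fun c => (∀ k j, (M : ℤ) ∣ c k j - c₀ k j) ∧
        ∃ t : ℝ, 0 < t ∧ ∀ k j, |(c k j : ℝ) - t * (c₀ k j : ℝ)| ≤ ε * t)).card : ℝ) ≤
      (((BXI e H).filter (fun c => (∀ i j, (M : ℤ) ∣ c i j - c₀ i j) ∧
        ∃ l : ℕ, l.Prime ∧ W < l ∧ ¬ Triv c l)).card : ℝ) +
        ((BXI e H).filter (fun c => LocG E U c)).card := by
    exact_mod_cast (card_le_card hsub).trans (card_union_le _ _)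
  have hfin : p₀ / 2 * (1 / (M : ℝ)) ^ ncI e * ((2 * H + 1 : ℕ) : ℝ) ^ ncI e =
      p₀ / 2 * (((2 * H + 1 : ℕ) : ℝ) / M) ^ ncI e := by
    rw [mul_assoc, ← mul_pow]
    congr 2
    ring
  have hB2 : p₀ * (((2 * H + 1 : ℕ) : ℝ) / M) ^ ncI e ≤
      (((BXI e H).filter (fun c => (∀ k j, (M : ℤ) ∣ c k j - c₀ k j) ∧
        ∃ t : ℝ, 0 < t ∧ ∀ k j, |(c k j : ℝ) - t * (c₀ k j : ℝ)| ≤ ε * t)).card : ℝ) := by
    convert hB
  have hA2 : (((BXI e H).filter (fun c => (∀ i j, (M : ℤ) ∣ c i j - c₀ i j) ∧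
        ∃ l : ℕ, l.Prime ∧ W < l ∧ ¬ Triv c l)).card : ℝ) ≤
      p₀ / 2 * (((2 * H + 1 : ℕ) : ℝ) / M) ^ ncI e := by
    convert hA
  have hC2 : p₀ / 2 * (((2 * H + 1 : ℕ) : ℝ) / M) ^ ncI e ≤
      (((BXI e H).filter (fun c => LocG E U c)).card : ℝ) := by
    linarith
  rw [hfin]
  convert hC2

end Pool.Agent.N80.GC
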